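import Pool.Agent.N612.AW.Main

/-!
# The fixed point of `1 → 12122121`, `2 → 2` is not automatic (MP_ad6ded_lc, Q1 and Q2)
-/

namespace Pool.Agent.Results.MP_ad6ded_lc.NotAutomatic

open Pool.Agent.N612.AW

/-- There is exactly one infinite word which has all the words `x_n` as prefixes, and it is not
`k`-automatic for any `k ≥ 2`. -/
theorem result : (∃! a : ℕ → ℕ, IsLimit a) ∧
    ∀ a : ℕ → ℕ, IsLimit a → ∀ k : ℕ, 2 ≤ k → ¬ IsAutomatic k a :=
  ⟨existsUnique_limit, fun _ ha k hk => not_automatic ha k hk⟩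

end Pool.Agent.Results.MP_ad6ded_lc.NotAutomatic
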